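import Pool.Agent.K3h60.CG.Defs
import Mathlib.Data.ZMod.Basic
import Mathlib.Data.Set.Finite.Lattice
import Mathlib.Tactic

/-!
# The first cohomology group mod 2 of the clique complex is not killed by the clique operator
-/

set_option autoImplicit false

namespace Pool.Agent.K3h60.CG

/-- adjacent or equal -/
def Rel (Γ : Graph) (x y : Γ.V) : Prop := x = y ∨ Γ.G.Adj x y

/-- a mod 2 cocycle on the clique complex -/
def IsCocycle (Γ : Graph) (c : Γ.V → Γ.V → ZMod 2) : Prop :=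
  ∀ x y z, Rel Γ x y → Rel Γ y z → Rel Γ x z → c x y + c y z = c x z

/-- a coboundary -/
def IsCoboundary (Γ : Graph) (c : Γ.V → Γ.V → ZMod 2) : Prop :=
  ∃ g : Γ.V → ZMod 2, ∀ x y, Rel Γ x y → c x y = g x + g y

/-- the first cohomology group mod 2 of the clique complex is not zero -/
def Nontriv (Γ : Graph) : Prop := ∃ c, IsCocycle Γ c ∧ ¬ IsCoboundary Γ c

lemma Rel.symm {Γ : Graph} {x y : Γ.V} (h : Rel Γ x y) : Rel Γ y x :=
  h.imp Eq.symm (fun h => Γ.G.adj_symm h)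

lemma Rel.refl {Γ : Graph} (x : Γ.V) : Rel Γ x x := Or.inl rfl

lemma two_eq (a : ZMod 2) : a + a = 0 := by
  have : ∀ a : ZMod 2, a + a = 0 := by decide
  exact this a

lemma IsCocycle.self {Γ : Graph} {c : Γ.V → Γ.V → ZMod 2} (h : IsCocycle Γ c) (x : Γ.V) :
    c x x = 0 := by
  have := h x x x (Rel.refl x) (Rel.refl x) (Rel.refl x)
  simpa using this

lemma IsCocycle.symm {Γ : Graph} {c : Γ.V → Γ.V → ZMod 2} (h : IsCocycle Γ c) {x y : Γ.V}
    (hxy : Rel Γ x y) : c x y = c y x := by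
  have h1 := h x y x hxy hxy.symm (Rel.refl x)
  rw [h.self] at h1
  have h2 := two_eq (c y x)
  calc c x y = c x y + (c y x + c y x) := by rw [h2, add_zero]
    _ = (c x y + c y x) + c y x := by ring
    _ = c y x := by rw [h1, zero_add]

lemma nontrivial_of_nontriv {Γ : Graph} (h : Nontriv Γ) : Nontrivial Γ.V := by
  by_contra hn
  rw [not_nontrivial_iff_subsingleton] at hn
  obtain ⟨c, hc, hb⟩ := h
  apply hb
  refine ⟨fun _ => 0, fun x y _ => ?_⟩
  rw [Subsingleton.elim y x, hc.self, add_zero]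

lemma exists_maximal {Γ : Graph} [Finite Γ.V] (x y : Γ.V) (h : Rel Γ x y) :
    ∃ Q : Set Γ.V, Maximal Γ.G.IsClique Q ∧ x ∈ Q ∧ y ∈ Q := by
  have h1 : Γ.G.IsClique ({x, y} : Set Γ.V) := by
    rw [SimpleGraph.isClique_pair]
    intro hne
    rcases h with h | h
    · exact absurd h hne
    · exact h
  obtain ⟨Q, hQ, hmax⟩ := Finite.exists_le_maximal h1
  exact ⟨Q, hmax, hQ (by simp), hQ (by simp)⟩

lemma rel_of_mem {Γ : Graph} {Q : Set Γ.V} (hQ : Maximal Γ.G.IsClique Q) {x y : Γ.V} (hx : x ∈ Q)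
    (hy : y ∈ Q) : Rel Γ x y := by
  by_cases h : x = y
  · exact Or.inl h
  · exact Or.inr (hQ.prop hx hy h)

/-- The clique operator preserves nontriviality of the first cohomology group mod 2. -/
theorem nontriv_cliqueGraph {Γ : Graph} [Finite Γ.V] (h : Nontriv Γ) : Nontriv (cliqueGraph Γ) := by
  classical
  have hnt := nontrivial_of_nontriv h
  obtain ⟨x0⟩ : Nonempty Γ.V := inferInstance
  obtain ⟨c, hc, hb⟩ := h
  have hne : ∀ Q : (cliqueGraph Γ).V, ∃ q, q ∈ Q.1 := by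
    intro Q
    by_contra hQ
    push Not at hQ
    have h1 : Γ.G.IsClique ({x0} : Set Γ.V) := SimpleGraph.isClique_singleton x0
    have h2 : Q.1 ≤ ({x0} : Set Γ.V) := fun y hy => absurd hy (hQ y)
    exact hQ x0 (Q.2.le_of_ge h1 h2 rfl)
  choose q hq using hne
  have hrel : ∀ Q R : (cliqueGraph Γ).V, Rel (cliqueGraph Γ) Q R ↔ ∃ x, x ∈ Q.1 ∧ x ∈ R.1 := by
    intro Q R
    constructor
    · rintro (h | h)
      · exact ⟨q Q, hq Q, by rw [← h]; exact hq Q⟩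
      · obtain ⟨x, hx⟩ := h.2
        exact ⟨x, hx.1, hx.2⟩
    · rintro ⟨x, hx, hx'⟩
      by_cases h : Q = R
      · exact Or.inl h
      · exact Or.inr ⟨h, x, hx, hx'⟩
  let c' : (cliqueGraph Γ).V → (cliqueGraph Γ).V → ZMod 2 := fun Q R =>
    if h : ∃ x, x ∈ Q.1 ∧ x ∈ R.1 then c (q Q) h.choose + c h.choose (q R) else 0
  have hc' : ∀ Q R : (cliqueGraph Γ).V, ∀ x, x ∈ Q.1 → x ∈ R.1 →
      c' Q R = c (q Q) x + c x (q R) := by
    intro Q R x hx hx'
    have h : ∃ x, x ∈ Q.1 ∧ x ∈ R.1 := ⟨x, hx, hx'⟩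
    have h1 : c' Q R = c (q Q) h.choose + c h.choose (q R) := dif_pos h
    obtain ⟨hy, hy'⟩ := h.choose_spec
    set y := h.choose
    have e1 := hc (q Q) y x (rel_of_mem Q.2 (hq Q) hy) (rel_of_mem Q.2 hy hx)
      (rel_of_mem Q.2 (hq Q) hx)
    have e2 := hc y x (q R) (rel_of_mem Q.2 hy hx) (rel_of_mem R.2 hx' (hq R))
      (rel_of_mem R.2 hy' (hq R))
    rw [h1, ← e1, ← e2]
    ring
  refine ⟨c', ?_, ?_⟩
  · intro Q R S hQR hRS hQS
    rw [hrel] at hQR hRS hQS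
    obtain ⟨x, hxQ, hxR⟩ := hQR
    obtain ⟨y, hyR, hyS⟩ := hRS
    obtain ⟨z, hzQ, hzS⟩ := hQS
    rw [hc' Q R x hxQ hxR, hc' R S y hyR hyS, hc' Q S z hzQ hzS]
    have e1 := hc x (q R) y (rel_of_mem R.2 hxR (hq R)) (rel_of_mem R.2 (hq R) hyR)
      (rel_of_mem R.2 hxR hyR)
    have e2 := hc (q Q) z x (rel_of_mem Q.2 (hq Q) hzQ) (rel_of_mem Q.2 hzQ hxQ)
      (rel_of_mem Q.2 (hq Q) hxQ)
    have e3 := hc z x y (rel_of_mem Q.2 hzQ hxQ) (rel_of_mem R.2 hxR hyR) (rel_of_mem S.2 hzS hyS)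
    have e4 := hc z y (q S) (rel_of_mem S.2 hzS hyS) (rel_of_mem S.2 hyS (hq S))
      (rel_of_mem S.2 hzS (hq S))
    calc c (q Q) x + c x (q R) + (c (q R) y + c y (q S))
        = c (q Q) x + (c x (q R) + c (q R) y) + c y (q S) := by ring
      _ = c (q Q) z + (c z x + c x y) + c y (q S) := by rw [e1, ← e2]; ring
      _ = c (q Q) z + c z (q S) := by rw [e3, add_assoc, e4]
  · rintro ⟨f, hf⟩
    apply hb
    have hcov : ∀ x : Γ.V, ∃ Q : (cliqueGraph Γ).V, x ∈ Q.1 := by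
      intro x
      obtain ⟨Q, hQ, hx, -⟩ := exists_maximal x x (Rel.refl x)
      exact ⟨⟨Q, hQ⟩, hx⟩
    choose m hm using hcov
    have hg : ∀ (x : Γ.V) (Q : (cliqueGraph Γ).V), x ∈ Q.1 →
        f (m x) + c (q (m x)) x = f Q + c (q Q) x := by
      intro x Q hx
      have h1 := hf (m x) Q ((hrel _ _).2 ⟨x, hm x, hx⟩)
      rw [hc' (m x) Q x (hm x) hx] at h1
      have h2 := hc.symm (rel_of_mem Q.2 hx (hq Q))
      rw [h2] at h1
      have h3 := two_eq (c (q Q) x)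
      have h4 := two_eq (f (m x))
      calc f (m x) + c (q (m x)) x
          = f (m x) + (c (q (m x)) x + c (q Q) x) + c (q Q) x := by
            rw [add_assoc, add_assoc, h3, add_zero]
        _ = (f (m x) + f (m x)) + f Q + c (q Q) x := by rw [h1]; ring
        _ = f Q + c (q Q) x := by rw [h4, zero_add]
    refine ⟨fun x => f (m x) + c (q (m x)) x, ?_⟩
    intro x y hxy
    obtain ⟨Q, hQ, hx, hy⟩ := exists_maximal x y hxy
    simp only
    rw [hg x ⟨Q, hQ⟩ hx, hg y ⟨Q, hQ⟩ hy]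
    have e1 := hc x (q ⟨Q, hQ⟩) y (rel_of_mem hQ hx (hq ⟨Q, hQ⟩)) (rel_of_mem hQ (hq ⟨Q, hQ⟩) hy) hxy
    have e2 := hc.symm (rel_of_mem hQ hx (hq ⟨Q, hQ⟩))
    have h4 := two_eq (f ⟨Q, hQ⟩)
    rw [← e1, e2]
    calc c (q ⟨Q, hQ⟩) x + c (q ⟨Q, hQ⟩) y
        = (f ⟨Q, hQ⟩ + f ⟨Q, hQ⟩) + (c (q ⟨Q, hQ⟩) x + c (q ⟨Q, hQ⟩) y) := by rw [h4, zero_add]
      _ = _ := by ring

lemma finite_iter {Γ : Graph} [Finite Γ.V] (n : ℕ) : Finite (cliqueGraph^[n] Γ).V := by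
  induction n with
  | zero => assumption
  | succ n ih =>
    rw [Function.iterate_succ_apply']
    have := ih
    change Finite {Q : Set (cliqueGraph^[n] Γ).V // Maximal (cliqueGraph^[n] Γ).G.IsClique Q}
    infer_instance

lemma nontriv_iter {Γ : Graph} [Finite Γ.V] (h : Nontriv Γ) (n : ℕ) :
    Nontriv (cliqueGraph^[n] Γ) := by
  induction n with
  | zero => exact h
  | succ n ih =>
    rw [Function.iterate_succ_apply']
    have := finite_iter (Γ := Γ) n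
    exact nontriv_cliqueGraph ih

theorem two_le_card_iter {Γ : Graph} [Finite Γ.V] (h : Nontriv Γ) (n : ℕ) :
    2 ≤ Nat.card (cliqueGraph^[n] Γ).V := by
  have := finite_iter (Γ := Γ) n
  have h1 := nontrivial_of_nontriv (nontriv_iter h n)
  exact Finite.one_lt_card

end Pool.Agent.K3h60.CG
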