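import Mathlib.Combinatorics.SimpleGraph.Clique
import Mathlib.Order.Hom.Basic

/-!
# Iterated clique graphs: definitions
-/

set_option autoImplicit false

namespace Pool.Agent.K3h60.CG

/-- A simple graph together with its vertex type. -/
structure Graph where
  V : Type
  G : SimpleGraph V

/-- The comparability graph of an ordered set: two distinct elements are adjacent iff they are
comparable. -/
def comparabilityGraph (P : Type) [PartialOrder P] : Graph where
  V := P
  G := { Adj := fun x y => x ≠ y ∧ (x ≤ y ∨ y ≤ x)
         symm := ⟨fun _ _ h => ⟨h.1.symm, h.2.symm⟩⟩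
         loopless := ⟨fun _ h => h.1 rfl⟩ }

/-- The clique graph: its vertices are the (inclusion) maximal cliques, and two distinct maximal
cliques are adjacent iff they share at least one vertex. -/
def cliqueGraph (Γ : Graph) : Graph where
  V := {Q : Set Γ.V // Maximal Γ.G.IsClique Q}
  G := { Adj := fun Q R => Q ≠ R ∧ (Q.1 ∩ R.1).Nonempty
         symm := ⟨fun Q R h => ⟨h.1.symm, by rw [Set.inter_comm]; exact h.2⟩⟩
         loopless := ⟨fun _ h => h.1 rfl⟩ }

end Pool.Agent.K3h60.CG
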