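import Pool.Agent.K3h60.CG.Cocycle
import Mathlib.Data.Nat.Bitwise

/-!
# The face poset of the hemicube

The hemicube is the cell structure of the real projective plane with 4 vertices, 6 edges and
3 square faces (the cube modulo the antipodal map). We number the cells `0, …, 12`:
`0, 1, 2` are the faces, `3, 4, 5, 6` the vertices, `7, …, 12` the edges
`{3,4}, {3,5}, {3,6}, {4,5}, {4,6}, {5,6}`; the face `0` contains all vertices and all edges except
`7, 12`, the face `1` all edges except `8, 11`, and the face `2` all edges except `9, 10`.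
-/

set_option autoImplicit false

namespace Pool.Agent.K3h60.CG

/-- bit `b` of entry `a` says that `a ≤ b` -/
def up : List ℕ := [1, 2, 4, 911, 3223, 5415, 6727, 134, 261, 515, 1027, 2053, 4102]

/-- bit `b` of entry `a` says that `b ≤ a` -/
def dn : List ℕ := [3961, 5882, 6652, 8, 16, 32, 64, 152, 296, 584, 1072, 2128, 4192]

/-- the face poset of the hemicube -/
structure HC where
  val : Fin 13
deriving DecidableEq

instance : Finite HC := Finite.of_injective HC.val (fun a b h => by cases a; cases b; simp_all)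

def leB (a b : Fin 13) : Bool := (up.getD a.1 0).testBit b.1

instance : PartialOrder HC where
  le a b := leB a.val b.val = true
  le_refl a := by
    have : ∀ a : Fin 13, leB a a = true := by decide
    exact this a.val
  le_trans a b c h1 h2 := by
    have : ∀ a b c : Fin 13, leB a b = true → leB b c = true → leB a c = true := by decide +kernel
    exact this a.val b.val c.val h1 h2
  le_antisymm a b h1 h2 := by
    have : ∀ a b : Fin 13, leB a b = true → leB b a = true → a = b := by decide +kernel
    have h := this a.val b.val h1 h2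
    cases a; cases b; simp_all

lemma le_iff (a b : HC) : a ≤ b ↔ leB a.val b.val = true := Iff.rfl

/-- support of the cocycle -/
def supp : List (ℕ × ℕ) := [(0, 3), (1, 6), (1, 9), (2, 5), (2, 8), (2, 12), (3, 8), (3, 9), (6, 12)]

def cB (a b : Fin 13) : Bool := supp.contains (a.1, b.1) || supp.contains (b.1, a.1)

def coc (a b : Fin 13) : ZMod 2 := if cB a b then 1 else 0

def relB (a b : Fin 13) : Bool := leB a b || leB b a

lemma rel_iff (a b : (comparabilityGraph HC).V) :
    Rel (comparabilityGraph HC) a b ↔ relB a.val b.val = true := by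
  unfold Rel relB
  constructor
  · rintro (h | h)
    · subst h
      have : leB a.val a.val = true := le_refl (α := HC) a
      simp [this]
    · have h2 : leB a.val b.val = true ∨ leB b.val a.val = true := h.2
      simpa using h2
  · intro h
    by_cases hab : a = b
    · exact Or.inl hab
    · rw [Bool.or_eq_true] at h
      exact Or.inr ⟨hab, h⟩

lemma coc_cocycle : ∀ x y z : Fin 13, relB x y = true → relB y z = true → relB x z = true →
    coc x y + coc y z = coc x z := by decide +kernel

theorem nontriv_HC : Nontriv (comparabilityGraph HC) := by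
  refine ⟨fun a b => coc a.val b.val, ?_, ?_⟩
  · intro x y z h1 h2 h3
    rw [rel_iff] at h1 h2 h3
    exact coc_cocycle _ _ _ h1 h2 h3
  · rintro ⟨g, hg⟩
    have e1 := hg ⟨0⟩ ⟨4⟩ ((rel_iff _ _).2 (by decide))
    have e2 := hg ⟨4⟩ ⟨1⟩ ((rel_iff _ _).2 (by decide))
    have e3 := hg ⟨1⟩ ⟨3⟩ ((rel_iff _ _).2 (by decide))
    have e4 := hg ⟨3⟩ ⟨0⟩ ((rel_iff _ _).2 (by decide))
    have v1 : coc 0 4 = 0 := by decide
    have v2 : coc 4 1 = 0 := by decide
    have v3 : coc 1 3 = 0 := by decide
    have v4 : coc 3 0 = 1 := by decide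
    simp only [v1, v2, v3, v4] at e1 e2 e3 e4
    have key : ∀ a b c d : ZMod 2, 0 = a + b → 0 = b + c → 0 = c + d → 1 = d + a → False := by
      decide
    exact key _ _ _ _ e1 e2 e3 e4

/-! ### The fixed point property -/

def leN (a b : ℕ) : Bool := (up.getD a 0).testBit b

def filt (k y : ℕ) : ℕ → List ℕ → List ℕ
  | _, [] => []
  | z, d :: ds => (if leN k z then d &&& up.getD y 0 else if leN z k then d &&& dn.getD y 0 else d) ::
      filt k y (z + 1) ds

/-- search for a map: `ds` are the sets (as bit masks) of the possible values at `k`, `k + 1`, … -/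
def go : ℕ → ℕ → List ℕ → Bool
  | 0, _, _ => true
  | _ + 1, _, [] => true
  | n + 1, k, d :: ds => [0, 1, 2, 3, 4, 5, 6, 7, 8, 9, 10, 11, 12].any fun y =>
      d.testBit y && ((filt k y (k + 1) ds).all (fun e => !(e == 0)) && go n (k + 1) (filt k y (k + 1) ds))

def Dom (F : ℕ → ℕ) : ℕ → List ℕ → Prop
  | _, [] => True
  | z, d :: ds => d.testBit (F z) = true ∧ Dom F (z + 1) ds

lemma dom_filt (F : ℕ → ℕ) (k : ℕ) (h1 : ∀ z, leN k z = true → (up.getD (F k) 0).testBit (F z) = true)
    (h2 : ∀ z, leN z k = true → (dn.getD (F k) 0).testBit (F z) = true) :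
    ∀ (ds : List ℕ) (z : ℕ), Dom F z ds → Dom F z (filt k (F k) z ds) := by
  intro ds
  induction ds with
  | nil => intro z _; trivial
  | cons d ds ih =>
    intro z h
    refine ⟨?_, ih (z + 1) h.2⟩
    by_cases c1 : leN k z = true
    · rw [if_pos c1, Nat.testBit_and, h.1, h1 z c1]; rfl
    · rw [if_neg c1]
      by_cases c2 : leN z k = true
      · rw [if_pos c2, Nat.testBit_and, h.1, h2 z c2]; rfl
      · rw [if_neg c2]; exact h.1

lemma dom_ne_zero (F : ℕ → ℕ) : ∀ (ds : List ℕ) (z : ℕ), Dom F z ds →
    ds.all (fun e => !(e == 0)) = true := by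
  intro ds
  induction ds with
  | nil => intro z _; rfl
  | cons d ds ih =>
    intro z h
    rw [List.all_cons, ih (z + 1) h.2, Bool.and_true]
    have : d ≠ 0 := by
      rintro rfl
      have := h.1
      simp at this
    simpa using this

lemma go_sound (F : ℕ → ℕ) (hF : ∀ z, F z < 13)
    (h1 : ∀ k z, leN k z = true → (up.getD (F k) 0).testBit (F z) = true)
    (h2 : ∀ k z, leN z k = true → (dn.getD (F k) 0).testBit (F z) = true) :
    ∀ (n k : ℕ) (ds : List ℕ), Dom F k ds → go n k ds = true := by
  intro n
  induction n with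
  | zero => intro k ds _; cases ds <;> rfl
  | succ n ih =>
    intro k ds h
    cases ds with
    | nil => rfl
    | cons d ds =>
      have h3 := dom_filt F k (h1 k) (h2 k) ds (k + 1) h.2
      unfold go
      rw [List.any_eq_true]
      refine ⟨F k, ?_, ?_⟩
      · have := hF k
        simp only [List.mem_cons, List.not_mem_nil, or_false]
        omega
      · rw [h.1, dom_ne_zero F _ _ h3, ih _ _ h3]
        rfl

def init : List ℕ := [8190, 8189, 8187, 8183, 8175, 8159, 8127, 8063, 7935, 7679, 7167, 6143, 4095]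

lemma go_init : go 13 0 init = false := by decide +kernel

theorem fpp (f : HC →o HC) : ∃ x, f x = x := by
  by_contra hno
  push Not at hno
  let F : ℕ → ℕ := fun i => if h : i < 13 then (f ⟨⟨i, h⟩⟩).val.1 else 0
  have hF : ∀ z, F z < 13 := by
    intro z
    simp only [F]
    split_ifs
    · exact (f _).val.2
    · norm_num
  have hle : ∀ a b : ℕ, leN a b = true → a < 13 ∧ b < 13 := by
    intro a b h
    have ha : a < 13 := by
      by_contra ha
      have : up.getD a 0 = 0 := List.getD_eq_default _ _ (by simp only [up, List.length_cons, List.length_nil]; omega)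
      rw [leN, this, Nat.zero_testBit] at h
      exact absurd h (by decide)
    refine ⟨ha, ?_⟩
    by_contra hb
    have h3 : ∀ a : Fin 13, up.getD a.1 0 < 2 ^ 13 := by decide
    have h4 : up.getD a 0 < 2 ^ b := lt_of_lt_of_le (h3 ⟨a, ha⟩) (Nat.pow_le_pow_right (by norm_num) (by omega))
    have h5 : (up.getD a 0).testBit b = false := Nat.testBit_lt_two_pow h4
    rw [leN, h5] at h
    exact absurd h (by decide)
  have hmono : ∀ a b : ℕ, leN a b = true → leN (F a) (F b) = true := by
    intro a b h
    obtain ⟨ha, hb⟩ := hle a b h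
    have h3 : (⟨⟨a, ha⟩⟩ : HC) ≤ ⟨⟨b, hb⟩⟩ := h
    have h4 : leN (f ⟨⟨a, ha⟩⟩).val.1 (f ⟨⟨b, hb⟩⟩).val.1 = true := f.monotone h3
    simp only [F, dif_pos ha, dif_pos hb]
    exact h4
  have hdn : ∀ a b : Fin 13, leN a.1 b.1 = true → (dn.getD b.1 0).testBit a.1 = true := by
    decide +kernel
  have h1 := go_sound F hF (fun k z h => hmono k z h)
    (fun k z h => hdn ⟨F z, hF z⟩ ⟨F k, hF k⟩ (hmono z k h)) 13 0 init
  rw [go_init] at h1
  have hinit : ∀ i a : Fin 13, a ≠ i → (init.getD i.1 0).testBit a.1 = true := by decide +kernel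
  have hfix : ∀ (i : ℕ) (h : i < 13), (init.getD i 0).testBit (F i) = true := by
    intro i h
    have h5 : F i = (f ⟨⟨i, h⟩⟩).val.1 := by simp only [F, dif_pos h]
    rw [h5]
    apply hinit ⟨i, h⟩ (f ⟨⟨i, h⟩⟩).val
    intro he
    apply hno ⟨⟨i, h⟩⟩
    cases hh : f ⟨⟨i, h⟩⟩
    rw [hh] at he
    simp_all
  have h2 : Dom F 0 init :=
    ⟨hfix 0 (by norm_num), hfix 1 (by norm_num), hfix 2 (by norm_num), hfix 3 (by norm_num),
      hfix 4 (by norm_num), hfix 5 (by norm_num), hfix 6 (by norm_num), hfix 7 (by norm_num),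
      hfix 8 (by norm_num), hfix 9 (by norm_num), hfix 10 (by norm_num), hfix 11 (by norm_num),
      hfix 12 (by norm_num), trivial⟩
  exact absurd (h1 h2) (by decide)

end Pool.Agent.K3h60.CG
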