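import Pool.Agent.K3h60.CG.Poset

/-!
# An ordered set with the fixed point property and without collapsing iterated clique graphs

The ordered set is the face poset of the hemicube (the cell structure of the real projective plane
with 4 vertices, 6 edges and 3 squares), with 13 elements. It has the fixed point property (it is
acyclic over the rational numbers; here this is checked by a search). Its order complex, the
complex of the cliques of the comparability graph, has nonzero first cohomology with coefficients
in `ZMod 2`, and the clique operator preserves this property.
-/

set_option autoImplicit false

namespace Pool.Agent.K3h60.CG.Withdrawn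

open Pool.Agent.K3h60.CG

/-- **Negative answer to Q1.** There is a finite nonempty ordered set `P` with the fixed point
property such that for every `n` the `n`-th iterated clique graph of the comparability graph of
`P` has at least two vertices. -/
theorem result : ∃ (P : Type) (_ : PartialOrder P), Finite P ∧ Nonempty P ∧
    (∀ f : P → P, Monotone f → ∃ x, f x = x) ∧
    ∀ n : ℕ, Finite (cliqueGraph^[n] (comparabilityGraph P)).V ∧
      2 ≤ Nat.card (cliqueGraph^[n] (comparabilityGraph P)).V := by
  have hfin : Finite (comparabilityGraph HC).V := inferInstanceAs (Finite HC)
  exact ⟨HC, inferInstance, inferInstance, ⟨⟨0⟩⟩, fun f hf => fpp ⟨f, hf⟩,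
    fun n => ⟨finite_iter n, two_le_card_iter nontriv_HC n⟩⟩

end Pool.Agent.K3h60.CG.Withdrawn
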